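import Pool.Agent.Helper88.Ric.Stmts

set_option autoImplicit false

/-!
MP_092777_ag: module LOC (local holomorphic choice of the sum of the zeros of a fibre)
-/

open scoped ContDiff Manifold Topology MatrixGroups LinearAlgebra.Projectivization
open Complex

noncomputable section

namespace RicP

/-! ### Real coordinates and fundamental parallelograms -/

/-- first real coordinate -/
def loc_a (τ z : ℂ) : ℝ := z.im / τ.im

/-- second real coordinate -/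
def loc_b (τ z : ℂ) : ℝ := z.re - z.im / τ.im * τ.re

theorem loc_ab {τ : ℂ} (hτ : 0 < τ.im) (z : ℂ) :
    z = (loc_a τ z : ℂ) * τ + (loc_b τ z : ℂ) := by
  have h := hτ.ne'
  apply Complex.ext
  · simp [loc_a, loc_b]
  · simp only [loc_a, loc_b, add_im, mul_im, ofReal_re, ofReal_im, zero_mul, add_zero]
    field_simp

theorem loc_a_add {τ : ℂ} (hτ : 0 < τ.im) (z : ℂ) (m n : ℤ) :
    loc_a τ (z + m * τ + n) = loc_a τ z + m := by
  have h := hτ.ne'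
  simp only [loc_a, add_im, mul_im, intCast_re, intCast_im, zero_mul, add_zero]
  field_simp

theorem loc_b_add {τ : ℂ} (hτ : 0 < τ.im) (z : ℂ) (m n : ℤ) :
    loc_b τ (z + m * τ + n) = loc_b τ z + n := by
  have h := hτ.ne'
  simp only [loc_b, add_im, mul_im, add_re, mul_re, intCast_re, intCast_im, zero_mul, add_zero,
    sub_zero]
  field_simp
  ring

/-- coordinates of a combination -/
theorem loc_coord {τ : ℂ} (hτ : 0 < τ.im) (a b : ℝ) :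
    loc_a τ ((a : ℂ) * τ + (b : ℂ)) = a ∧ loc_b τ ((a : ℂ) * τ + (b : ℂ)) = b := by
  have h := hτ.ne'
  constructor
  · simp only [loc_a, add_im, mul_im, ofReal_re, ofReal_im, zero_mul, add_zero]
    field_simp
  · simp only [loc_b, add_im, mul_im, add_re, mul_re, ofReal_re, ofReal_im, zero_mul, add_zero,
      sub_zero]
    field_simp
    ring

/-- half-open fundamental parallelogram -/
def loc_D (α β : ℝ) (τ : ℂ) : Set ℂ :=
  {z | α ≤ loc_a τ z ∧ loc_a τ z < α + 1 ∧ β ≤ loc_b τ z ∧ loc_b τ z < β + 1}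

theorem loc_bij {τ : ℂ} (hτ : 0 < τ.im) (α β : ℝ) :
    Function.Bijective (fun z : loc_D α β τ => ((z : ℂ) : ℂ ⧸ latt τ)) := by
  constructor
  · rintro ⟨z, hz⟩ ⟨w, hw⟩ h
    have h' : ((z : ℂ) : ℂ ⧸ latt τ) = (w : ℂ ⧸ latt τ) := h
    rw [QuotientAddGroup.eq] at h'
    obtain ⟨m, n, hmn⟩ := h'
    have hw' : w = z + m * τ + n := by
      linear_combination hmn
    have e1 := loc_a_add hτ z m n
    have e2 := loc_b_add hτ z m n
    rw [← hw'] at e1 e2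
    obtain ⟨a1, a2, a3, a4⟩ := hz
    obtain ⟨b1, b2, b3, b4⟩ := hw
    have m1 : (m : ℝ) < 1 := by linarith
    have m2 : (-1 : ℝ) < m := by linarith
    have n1 : (n : ℝ) < 1 := by linarith
    have n2 : (-1 : ℝ) < n := by linarith
    have m0 : m = 0 := by
      have h1 : m < 1 := by exact_mod_cast m1
      have h2 : -1 < m := by exact_mod_cast m2
      omega
    have n0 : n = 0 := by
      have h1 : n < 1 := by exact_mod_cast n1
      have h2 : -1 < n := by exact_mod_cast n2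
      omega
    apply Subtype.ext
    show z = w
    rw [hw', m0, n0]
    simp
  · intro x
    induction x using QuotientAddGroup.induction_on with
    | H z =>
      set m := ⌊loc_a τ z - α⌋ with hm
      set n := ⌊loc_b τ z - β⌋ with hn
      have m1 := Int.floor_le (loc_a τ z - α)
      have m2 := Int.lt_floor_add_one (loc_a τ z - α)
      have n1 := Int.floor_le (loc_b τ z - β)
      have n2 := Int.lt_floor_add_one (loc_b τ z - β)
      rw [← hm] at m1 m2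
      rw [← hn] at n1 n2
      have e1 := loc_a_add hτ z (-m) (-n)
      have e2 := loc_b_add hτ z (-m) (-n)
      push_cast at e1 e2
      refine ⟨⟨z + ((-m : ℤ) : ℂ) * τ + ((-n : ℤ) : ℂ), ?_⟩, ?_⟩
      · push_cast
        show _ ∧ _ ∧ _ ∧ _
        rw [e1, e2]
        refine ⟨by linarith, by linarith, by linarith, by linarith⟩
      · show ((z + ((-m : ℤ) : ℂ) * τ + ((-n : ℤ) : ℂ) : ℂ) : ℂ ⧸ latt τ) = (z : ℂ ⧸ latt τ)
        rw [QuotientAddGroup.eq]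
        exact ⟨m, n, by push_cast; ring⟩

theorem loc_out {μ : E → ℕ} {τ : ℂ} (hτ : 0 < τ.im)
    (hper : ∀ (τ z : ℂ) (m n : ℤ), 0 < τ.im → μ (τ, z + m * τ + n) = μ (τ, z)) (z : ℂ) :
    μ (τ, Quotient.out (z : ℂ ⧸ latt τ)) = μ (τ, z) := by
  obtain ⟨⟨h, m, n, hmn⟩, e⟩ := QuotientAddGroup.mk_out_eq_add (latt τ) z
  have e' : Quotient.out (z : ℂ ⧸ latt τ) = z + (m * τ + n) := by
    rw [← hmn]
    exact e
  rw [e', ← add_assoc]
  exact hper τ z m n hτ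

theorem loc_degF {μ : E → ℕ} {τ : ℂ} (hτ : 0 < τ.im)
    (hper : ∀ (τ z : ℂ) (m n : ℤ), 0 < τ.im → μ (τ, z + m * τ + n) = μ (τ, z)) (α β : ℝ) :
    degF μ τ = ∑ᶠ z ∈ loc_D α β τ, μ (τ, z) := by
  rw [← finsum_set_coe_eq_finsum_mem, degF]
  refine (finsum_eq_of_bijective _ (loc_bij hτ α β) fun z => ?_).symm
  exact (loc_out hτ hper z).symm

theorem loc_sumF {μ : E → ℕ} {τ : ℂ} (hτ : 0 < τ.im)
    (hper : ∀ (τ z : ℂ) (m n : ℤ), 0 < τ.im → μ (τ, z + m * τ + n) = μ (τ, z)) (α β : ℝ) :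
    sumF μ τ = ∑ᶠ z ∈ loc_D α β τ, μ (τ, z) • ((z : ℂ) : ℂ ⧸ latt τ) := by
  rw [← finsum_set_coe_eq_finsum_mem, sumF]
  refine (finsum_eq_of_bijective _ (loc_bij hτ α β) fun z => ?_).symm
  rw [loc_out hτ hper z]

/-! ### Zeros of the fibre -/

theorem loc_slice {V : Set E} {G : E → ℂ} (hV : IsOpen V) (hG : DifferentiableOn ℂ G V) {τ z : ℂ}
    (h : (τ, z) ∈ V) : AnalyticAt ℂ (fun w => G (τ, w)) z := by
  have hc : Continuous fun w : ℂ => ((τ, w) : E) := by fun_prop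
  have ho : IsOpen {w : ℂ | ((τ, w) : E) ∈ V} := hV.preimage hc
  have hd : DifferentiableOn ℂ (fun w => G (τ, w)) {w : ℂ | ((τ, w) : E) ∈ V} := by
    intro w hw
    have h1 : DifferentiableAt ℂ G (τ, w) := (hG (τ, w) hw).differentiableAt (hV.mem_nhds hw)
    have h2 : DifferentiableAt ℂ (fun w : ℂ => ((τ, w) : E)) w := by fun_prop
    exact (DifferentiableAt.comp w h1 h2).differentiableWithinAt
  exact hd.analyticAt (ho.mem_nhds h)

/-- the multiplicity vanishes near a point where it vanishes -/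
theorem loc_van {μ : E → ℕ} (hfib : FibDiv μ {x : E | 0 < x.1.im}) {τ z : ℂ} (hτ : 0 < τ.im)
    (h0 : μ (τ, z) = 0) : ∀ᶠ y in 𝓝 ((τ, z) : E), μ y = 0 := by
  obtain ⟨V, hV, hm, G, hG, hy⟩ := hfib (τ, z) hτ
  have h1 := hy (τ, z) hm
  have h2 : G (τ, z) ≠ 0 := by
    have h3 : analyticOrderNatAt (fun w => G (τ, w)) z = 0 := by
      rw [← h0]
      exact h1.2.symm
    have h4 : analyticOrderAt (fun w => G (τ, w)) z = 0 := by
      rw [← Nat.cast_analyticOrderNatAt h1.1, h3]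
      rfl
    exact ((loc_slice hV hG hm).analyticOrderAt_eq_zero).1 h4
  have h3 : ContinuousAt G (τ, z) := (hG.continuousOn).continuousAt (hV.mem_nhds hm)
  filter_upwards [hV.mem_nhds hm, h3.eventually_ne h2] with y hyV hyne
  rw [(hy y hyV).2, analyticOrderNatAt]
  have h4 : analyticOrderAt (fun w => G (y.1, w)) y.2 = 0 :=
    ((loc_slice (τ := y.1) (z := y.2) hV hG hyV).analyticOrderAt_eq_zero).2 hyne
  rw [h4]
  rfl

/-- the zeros of a fibre are isolated -/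
theorem loc_isol {μ : E → ℕ} (hfib : FibDiv μ {x : E | 0 < x.1.im}) {τ : ℂ} (hτ : 0 < τ.im)
    (z : ℂ) : ∀ᶠ w in 𝓝 z, μ (τ, w) ≠ 0 → w = z := by
  obtain ⟨V, hV, hm, G, hG, hy⟩ := hfib (τ, z) hτ
  have h1 := (hy (τ, z) hm).1
  have han := loc_slice hV hG hm
  have hc : ContinuousAt (fun w : ℂ => ((τ, w) : E)) z := by fun_prop
  have h2 : ∀ᶠ w in 𝓝 z, ((τ, w) : E) ∈ V := hc.eventually (hV.mem_nhds hm)
  rcases han.eventually_eq_zero_or_eventually_ne_zero with h3 | h3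
  · exact absurd (analyticOrderAt_eq_top.2 h3) h1
  · rw [eventually_nhdsWithin_iff] at h3
    filter_upwards [h2, h3] with w hw1 hw2 hne
    by_contra hwz
    have h4 : G (τ, w) ≠ 0 := hw2 hwz
    apply hne
    have h5 : analyticOrderAt (fun w => G (τ, w)) w = 0 :=
      ((loc_slice hV hG hw1).analyticOrderAt_eq_zero).2 h4
    rw [(hy (τ, w) hw1).2, analyticOrderNatAt]
    show (analyticOrderAt (fun w => G (τ, w)) w).toNat = 0
    rw [h5]
    rfl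

theorem loc_countable {μ : E → ℕ} (hfib : FibDiv μ {x : E | 0 < x.1.im}) {τ : ℂ}
    (hτ : 0 < τ.im) : {z : ℂ | μ (τ, z) ≠ 0}.Countable := by
  obtain ⟨s, hs, hsu⟩ := TopologicalSpace.countable_cover_nhds
    (f := fun z => {w | μ (τ, w) ≠ 0 → w = z}) (fun z => loc_isol hfib hτ z)
  refine hs.mono fun w hw => ?_
  have : w ∈ ⋃ x ∈ s, {w | μ (τ, w) ≠ 0 → w = x} := by
    rw [hsu]
    trivial
  rw [Set.mem_iUnion₂] at this
  obtain ⟨x, hx, hwx⟩ := this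
  rw [hwx hw]
  exact hx

theorem loc_finite {μ : E → ℕ} (hfib : FibDiv μ {x : E | 0 < x.1.im}) {τ : ℂ}
    (hτ : 0 < τ.im) {K : Set ℂ} (hK : IsCompact K) : (K ∩ {z : ℂ | μ (τ, z) ≠ 0}).Finite := by
  obtain ⟨t, -, ht⟩ := hK.elim_nhds_subcover (fun z => {w | μ (τ, w) ≠ 0 → w = z})
    (fun z _ => loc_isol hfib hτ z)
  refine t.finite_toSet.subset fun w hw => ?_
  have := ht hw.1
  rw [Set.mem_iUnion₂] at this
  obtain ⟨x, hx, hwx⟩ := this
  rw [hwx hw.2]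
  exact hx

/-- a parallelogram without zeros on its boundary -/
theorem loc_generic {μ : E → ℕ} (hfib : FibDiv μ {x : E | 0 < x.1.im})
    (hper : ∀ (τ z : ℂ) (m n : ℤ), 0 < τ.im → μ (τ, z + m * τ + n) = μ (τ, z)) {τ : ℂ}
    (hτ : 0 < τ.im) : ∃ α β : ℝ, ∀ z, μ (τ, z) ≠ 0 →
      α ≤ loc_a τ z ∧ loc_a τ z ≤ α + 1 ∧ β ≤ loc_b τ z ∧ loc_b τ z ≤ β + 1 →
      α < loc_a τ z ∧ loc_a τ z < α + 1 ∧ β < loc_b τ z ∧ loc_b τ z < β + 1 := by
  have hZ := loc_countable hfib hτ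
  obtain ⟨α, hα⟩ := ((hZ.image (loc_a τ)).dense_compl ℝ).nonempty
  obtain ⟨β, hβ⟩ := ((hZ.image (loc_b τ)).dense_compl ℝ).nonempty
  refine ⟨α, β, fun z hz h => ?_⟩
  have ha : ∀ m : ℤ, loc_a τ z + m ≠ α := by
    intro m h
    refine hα ⟨z + m * τ + ((0 : ℤ) : ℂ), ?_, ?_⟩
    · show μ (τ, z + m * τ + ((0 : ℤ) : ℂ)) ≠ 0
      rw [hper τ z m 0 hτ]
      exact hz
    · rw [loc_a_add hτ]
      exact h
  have hb : ∀ n : ℤ, loc_b τ z + n ≠ β := by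
    intro n h
    refine hβ ⟨z + ((0 : ℤ) : ℂ) * τ + (n : ℂ), ?_, ?_⟩
    · show μ (τ, z + ((0 : ℤ) : ℂ) * τ + (n : ℂ)) ≠ 0
      rw [hper τ z 0 n hτ]
      exact hz
    · rw [loc_b_add hτ]
      exact h
  have a0 := ha 0
  have a1 := ha (-1)
  have b0 := hb 0
  have b1 := hb (-1)
  push_cast at a0 a1 b0 b1
  obtain ⟨h1, h2, h3, h4⟩ := h
  refine ⟨lt_of_le_of_ne h1 fun e => a0 (by linarith), lt_of_le_of_ne h2 fun e => a1 (by linarith),
    lt_of_le_of_ne h3 fun e => b0 (by linarith), lt_of_le_of_ne h4 fun e => b1 (by linarith)⟩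

/-! ### Discs -/

open Metric in
theorem loc_disc (hCL : ST_CL) {μ : E → ℕ} (hfib : FibDiv μ {x : E | 0 < x.1.im}) {τ₀ : ℂ}
    (hτ : 0 < τ₀.im) (a : ℂ) : ∃ ρ₀ > 0, ∀ ρ, 0 < ρ → ρ ≤ ρ₀ → ∀ᶠ τ in 𝓝 τ₀,
      {z | z ∈ ball a ρ ∧ μ (τ, z) ≠ 0}.Finite ∧
      ∑ᶠ z ∈ ball a ρ, μ (τ, z) = μ (τ₀, a) ∧
      DifferentiableAt ℂ (fun s => ∑ᶠ z ∈ ball a ρ, (μ (s, z) : ℂ) * z) τ := by
  obtain ⟨V, hV, hm, G, hG, hy⟩ := hfib (τ₀, a) hτ
  obtain ⟨ρ₀, hρ₀, h⟩ := hCL V G τ₀ a hV hm hG (hy _ hm).1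
  refine ⟨ρ₀, hρ₀, fun ρ h1 h2 => ?_⟩
  obtain ⟨δ, hδ, c1, c2, c3, c4, c5⟩ := h ρ h1 h2
  have key : ∀ s ∈ ball τ₀ δ, ∀ z ∈ ball a ρ,
      μ (s, z) = analyticOrderNatAt (fun w => G (s, w)) z := fun s hs z hz =>
    (hy (s, z) (c1 s hs z (ball_subset_closedBall hz))).2
  filter_upwards [ball_mem_nhds τ₀ hδ] with τ hτδ
  refine ⟨(c3 τ hτδ).subset fun z hz => ⟨hz.1, ?_⟩, ?_, ?_⟩
  · have h3 := hz.2
    rw [key τ hτδ z hz.1] at h3
    exact apply_eq_zero_of_analyticOrderNatAt_ne_zero (f := fun w => G (τ, w)) h3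
  · rw [(hy _ hm).2]
    refine Eq.trans ?_ (c4 τ hτδ)
    exact finsum_mem_congr rfl fun z hz => key τ hτδ z hz
  · have h3 := c5 (fun x => x.2) (by fun_prop)
    have h4 := (h3 τ hτδ).differentiableAt (isOpen_ball.mem_nhds hτδ)
    refine h4.congr_of_eventuallyEq ?_
    filter_upwards [isOpen_ball.mem_nhds hτδ] with s hs
    exact finsum_mem_congr rfl fun z hz => by rw [key s hs z hz]

open Metric in
theorem loc_split {X : Type} [AddCommMonoid X] {A : Finset ℂ} {ρ : ℝ} {D Z : Set ℂ}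
    (hdisj : ∀ a ∈ A, ∀ b ∈ A, a ≠ b → 2 * ρ ≤ dist a b)
    (hfin : ∀ a ∈ A, {z | z ∈ ball a ρ ∧ z ∈ Z}.Finite) (hsub : ∀ a ∈ A, ball a ρ ⊆ D)
    (hcov : ∀ z ∈ D, z ∈ Z → ∃ a ∈ A, z ∈ ball a ρ) (g : ℂ → X) (hg : ∀ z, z ∉ Z → g z = 0) :
    ∑ᶠ z ∈ D, g z = ∑ a ∈ A, ∑ᶠ z ∈ ball a ρ, g z := by
  have hgZ : ∀ z ∈ Function.support g, z ∈ Z := fun z hz => by
    by_contra h
    exact hz (hg z h)
  have h1 : ∑ᶠ z ∈ D, g z = ∑ᶠ z ∈ ⋃ a ∈ (A : Set ℂ), {z | z ∈ ball a ρ ∧ z ∈ Z}, g z := by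
    refine finsum_mem_inter_support_eq' _ _ _ fun z hz => ?_
    rw [Set.mem_iUnion₂]
    constructor
    · intro h
      obtain ⟨a, ha, hza⟩ := hcov z h (hgZ z hz)
      exact ⟨a, ha, hza, hgZ z hz⟩
    · rintro ⟨a, ha, hza, -⟩
      exact hsub a ha hza
  rw [h1, finsum_mem_biUnion ?_ A.finite_toSet fun a ha => hfin a ha, finsum_mem_coe_finset]
  · refine Finset.sum_congr rfl fun a ha => ?_
    refine finsum_mem_inter_support_eq' _ _ _ fun z hz => ?_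
    exact ⟨fun h => h.1, fun h => ⟨h, hgZ z hz⟩⟩
  · intro a ha b hb hab
    refine Set.disjoint_left.2 fun z hz hz' => ?_
    have e1 : dist z a < ρ := hz.1
    have e2 : dist z b < ρ := hz'.1
    have e3 := hdisj a ha b hb hab
    have e4 := dist_triangle_left a b z
    linarith

/-! ### The theorem -/

/-- inside of the parallelogram -/
def loc_I (α β : ℝ) (x : E) : Prop :=
  α < loc_a x.1 x.2 ∧ loc_a x.1 x.2 < α + 1 ∧ β < loc_b x.1 x.2 ∧ loc_b x.1 x.2 < β + 1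

theorem loc_I_nhds {α β : ℝ} {τ z : ℂ} (hτ : 0 < τ.im) (h : loc_I α β (τ, z)) :
    ∀ᶠ y in 𝓝 ((τ, z) : E), loc_I α β y := by
  have h1 : ContinuousAt (fun x : E => loc_a x.1 x.2) (τ, z) := by
    unfold loc_a
    exact ContinuousAt.div (by fun_prop) (by fun_prop) hτ.ne'
  have h2 : ContinuousAt (fun x : E => loc_b x.1 x.2) (τ, z) := by
    unfold loc_b
    refine ContinuousAt.sub (by fun_prop) (ContinuousAt.mul ?_ (by fun_prop))
    exact ContinuousAt.div (by fun_prop) (by fun_prop) hτ.ne'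
  obtain ⟨i1, i2, i3, i4⟩ := h
  filter_upwards [h1.eventually (lt_mem_nhds i1), h1.eventually (gt_mem_nhds i2),
    h2.eventually (lt_mem_nhds i3), h2.eventually (gt_mem_nhds i4)] with y j1 j2 j3 j4
  exact ⟨j1, j2, j3, j4⟩

open Metric in
theorem st_LOC (hCL : ST_CL) : ST_LOC := by
  intro μ hfib hper τ₀ hτ₀
  obtain ⟨α, β, hgen⟩ := loc_generic hfib hper hτ₀
  have hC : IsCompact (Set.Icc α (α + 1) ×ˢ Set.Icc β (β + 1)) := isCompact_Icc.prod isCompact_Icc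
  set C : Set (ℝ × ℝ) := Set.Icc α (α + 1) ×ˢ Set.Icc β (β + 1) with hCdef
  have hfc : Continuous fun x : ℂ × (ℝ × ℝ) => (x.2.1 : ℂ) * x.1 + (x.2.2 : ℂ) := by fun_prop
  have hK : IsCompact ((fun x : ℝ × ℝ => (x.1 : ℂ) * τ₀ + (x.2 : ℂ)) '' C) :=
    hC.image (by fun_prop)
  have hfin := loc_finite hfib hτ₀ hK
  set A := hfin.toFinset with hAdef
  have hmemA : ∀ a, a ∈ A ↔ (∃ x ∈ C, (x.1 : ℂ) * τ₀ + (x.2 : ℂ) = a) ∧ μ (τ₀, a) ≠ 0 := by
    intro a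
    rw [hAdef, Set.Finite.mem_toFinset]
    rfl
  have hA : ∀ a ∈ A, loc_I α β (τ₀, a) := by
    intro a ha
    obtain ⟨⟨x, hx, rfl⟩, h2⟩ := (hmemA a).1 ha
    obtain ⟨⟨x1, x2⟩, x3, x4⟩ := hx
    obtain ⟨c1, c2⟩ := loc_coord hτ₀ x.1 x.2
    refine hgen _ h2 ?_
    rw [c1, c2]
    exact ⟨x1, x2, x3, x4⟩
  choose ρ₀ hρ₀ hdisc using loc_disc hCL hfib hτ₀
  -- the radius
  have hρev : ∀ᶠ ρ in 𝓝[>] (0 : ℝ), ∀ a ∈ A, ρ ≤ ρ₀ a ∧
      (∀ b ∈ A, a ≠ b → 2 * ρ ≤ dist a b) ∧ ∀ z ∈ closedBall a ρ, loc_I α β (τ₀, z) := by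
    rw [Finset.eventually_all]
    intro a ha
    refine Filter.Eventually.and ?_ (Filter.Eventually.and ?_ ?_)
    · filter_upwards [Ioc_mem_nhdsGT (hρ₀ a)] with ρ hρ
      exact hρ.2
    · rw [Finset.eventually_all]
      intro b hb
      by_cases hab : a = b
      · exact Filter.Eventually.of_forall fun ρ h => absurd hab h
      · have : 0 < dist a b / 2 := by
          have := dist_pos.2 hab
          linarith
        filter_upwards [Ioc_mem_nhdsGT this] with ρ hρ _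
        have := hρ.2
        linarith
    · have hc : ContinuousAt (fun z : ℂ => ((τ₀, z) : E)) a := by fun_prop
      have h1 : {z | loc_I α β (τ₀, z)} ∈ 𝓝 a := hc.eventually (loc_I_nhds hτ₀ (hA a ha))
      have h2 := eventually_closedBall_subset h1
      exact nhdsWithin_le_nhds (h2.mono fun ρ hρ z hz => hρ hz)
  obtain ⟨ρ, hρ, hρA⟩ := (hρev.and self_mem_nhdsWithin).exists
  have hρ0 : (0 : ℝ) < ρ := hρA
  -- near `τ₀`
  have e1 : ∀ᶠ τ in 𝓝 τ₀, 0 < τ.im := Complex.continuous_im.continuousAt.eventually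
    (lt_mem_nhds hτ₀)
  have e2 : ∀ᶠ τ in 𝓝 τ₀, ∀ a ∈ A, {z | z ∈ ball a ρ ∧ μ (τ, z) ≠ 0}.Finite ∧
      ∑ᶠ z ∈ ball a ρ, μ (τ, z) = μ (τ₀, a) ∧
      DifferentiableAt ℂ (fun s => ∑ᶠ z ∈ ball a ρ, (μ (s, z) : ℂ) * z) τ := by
    rw [Finset.eventually_all]
    exact fun a ha => hdisc a ρ hρ0 (hρ a ha).1
  have e3 : ∀ᶠ τ in 𝓝 τ₀, ∀ a ∈ A, ∀ z ∈ closedBall a ρ, loc_I α β (τ, z) := by
    rw [Finset.eventually_all]
    intro a ha
    exact (isCompact_closedBall a ρ).eventually_forall_of_forall_eventually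
      (P := fun τ z => loc_I α β (τ, z)) fun z hz => loc_I_nhds hτ₀ ((hρ a ha).2.2 z hz)
  have e4 : ∀ᶠ τ in 𝓝 τ₀, ∀ x ∈ C, μ (τ, (x.1 : ℂ) * τ + (x.2 : ℂ)) = 0 ∨
      ∃ a ∈ A, (x.1 : ℂ) * τ + (x.2 : ℂ) ∈ ball a ρ := by
    refine hC.eventually_forall_of_forall_eventually
      (P := fun (τ : ℂ) (x : ℝ × ℝ) => μ (τ, (x.1 : ℂ) * τ + (x.2 : ℂ)) = 0 ∨
        ∃ a ∈ A, (x.1 : ℂ) * τ + (x.2 : ℂ) ∈ ball a ρ) fun y hy => ?_
    by_cases h0 : μ (τ₀, (y.1 : ℂ) * τ₀ + (y.2 : ℂ)) = 0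
    · have h1 := loc_van hfib hτ₀ h0
      have h2 : ContinuousAt (fun x : ℂ × (ℝ × ℝ) =>
          ((x.1, (x.2.1 : ℂ) * x.1 + (x.2.2 : ℂ)) : E)) (τ₀, y) := by fun_prop
      exact (h2.eventually h1).mono fun x hx => Or.inl hx
    · have ha : (y.1 : ℂ) * τ₀ + (y.2 : ℂ) ∈ A := (hmemA _).2 ⟨⟨y, hy, rfl⟩, h0⟩
      have h2 := hfc.continuousAt (x := (τ₀, y))
      have h3 := h2.eventually (ball_mem_nhds ((y.1 : ℂ) * τ₀ + (y.2 : ℂ)) hρ0)
      exact h3.mono fun x hx => Or.inr ⟨_, ha, hx⟩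
  obtain ⟨δ, hδ, hall⟩ := Metric.eventually_nhds_iff_ball.1 (e1.and (e2.and (e3.and e4)))
  -- splitting of sums
  have hsplit : ∀ τ ∈ ball τ₀ δ, ∀ (X : Type) [AddCommMonoid X] (g : ℂ → X),
      (∀ z, μ (τ, z) = 0 → g z = 0) →
      ∑ᶠ z ∈ loc_D α β τ, g z = ∑ a ∈ A, ∑ᶠ z ∈ ball a ρ, g z := by
    intro τ hτδ X _ g hg
    obtain ⟨f1, f2, f3, f4⟩ := hall τ hτδ
    refine loc_split (Z := {z | μ (τ, z) ≠ 0}) (fun a ha => (hρ a ha).2.1)
      (fun a ha => (f2 a ha).1) (fun a ha z hz => ?_) (fun z hz hzZ => ?_) g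
      fun z hz => hg z (not_not.1 hz)
    · obtain ⟨i1, i2, i3, i4⟩ := f3 a ha z (ball_subset_closedBall hz)
      exact ⟨i1.le, i2, i3.le, i4⟩
    · obtain ⟨i1, i2, i3, i4⟩ := hz
      have h1 := f4 (loc_a τ z, loc_b τ z) ⟨⟨i1, i2.le⟩, i3, i4.le⟩
      simp only [← loc_ab f1 z] at h1
      rcases h1 with h1 | h1
      · exact absurd h1 hzZ
      · exact h1
  refine ⟨δ, hδ, fun τ hτ => (hall τ hτ).1,
    fun τ => ∑ a ∈ A, ∑ᶠ z ∈ ball a ρ, (μ (τ, z) : ℂ) * z, ?_, ?_⟩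
  · intro τ hτδ
    refine DifferentiableAt.differentiableWithinAt ?_
    refine DifferentiableAt.fun_sum fun a ha => ?_
    exact ((hall τ hτδ).2.1 a ha).2.2
  · intro τ hτδ
    obtain ⟨f1, f2, f3, f4⟩ := hall τ hτδ
    refine ⟨?_, ?_, ?_⟩
    · rw [loc_sumF f1 hper α β, hsplit τ hτδ (ℂ ⧸ latt τ)
        (fun z => μ (τ, z) • ((z : ℂ) : ℂ ⧸ latt τ)) fun z hz => by
          show μ (τ, z) • ((z : ℂ) : ℂ ⧸ latt τ) = 0
          rw [hz]
          exact zero_nsmul _]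
      have h1 : ((∑ a ∈ A, ∑ᶠ z ∈ ball a ρ, (μ (τ, z) : ℂ) * z : ℂ) : ℂ ⧸ latt τ) =
          QuotientAddGroup.mk' (latt τ) (∑ a ∈ A, ∑ᶠ z ∈ ball a ρ, (μ (τ, z) : ℂ) * z) := rfl
      rw [h1, map_sum]
      refine Finset.sum_congr rfl fun a ha => ?_
      rw [AddMonoidHom.map_finsum_mem']
      · refine finsum_mem_congr rfl fun z hz => ?_
        rw [← nsmul_eq_mul, map_nsmul]
        rfl
      · refine (f2 a ha).1.subset fun z hz => ⟨hz.1, fun h0 => hz.2 ?_⟩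
        show (μ (τ, z) : ℂ) * z = 0
        rw [h0]
        simp
    · have h1 : ∀ τ ∈ ball τ₀ δ, degF μ τ = ∑ a ∈ A, μ (τ₀, a) := by
        intro τ hτδ
        obtain ⟨f1, f2, f3, f4⟩ := hall τ hτδ
        rw [loc_degF f1 hper α β, hsplit τ hτδ ℕ (fun z => μ (τ, z)) fun z hz => hz]
        exact Finset.sum_congr rfl fun a ha => (f2 a ha).2.1
      rw [h1 τ hτδ, h1 τ₀ (mem_ball_self hδ)]
    · have h1 : (⋃ a ∈ (A : Set ℂ), {z | z ∈ ball a ρ ∧ μ (τ, z) ≠ 0}).Finite :=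
        A.finite_toSet.biUnion fun a ha => (f2 a ha).1
      refine (h1.image fun w : ℂ => Quotient.out (w : ℂ ⧸ latt τ)).subset ?_
      rintro z ⟨⟨x, rfl⟩, hpos⟩
      obtain ⟨⟨w, hw⟩, rfl⟩ := (loc_bij f1 α β).2 x
      have h2 : μ (τ, w) ≠ 0 := by
        have h3 := loc_out f1 hper w
        have h4 : 0 < μ (τ, Quotient.out ((w : ℂ) : ℂ ⧸ latt τ)) := hpos
        omega
      refine ⟨w, ?_, rfl⟩
      obtain ⟨i1, i2, i3, i4⟩ := hw
      have h5 := f4 (loc_a τ w, loc_b τ w) ⟨⟨i1, i2.le⟩, i3, i4.le⟩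
      simp only [← loc_ab f1 w] at h5
      rcases h5 with h5 | ⟨a, ha, h5⟩
      · exact absurd h5 h2
      · rw [Set.mem_iUnion₂]
        exact ⟨a, ha, h5, h2⟩

end RicP
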