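import Pool.Agent.Helper50.Ric.LOC

set_option autoImplicit false

/-!
MP_092777_ag: module SUM (the functions `S_q`)
-/

open scoped ContDiff Manifold Topology MatrixGroups LinearAlgebra.Projectivization
open Complex

noncomputable section

namespace RicP

/-- a continuous function with values in the lattices is `m τ + n` -/
theorem sum_lat {U : Set ℂ} (hU : IsPreconnected U) (hpos : ∀ τ ∈ U, 0 < τ.im) {f : ℂ → ℂ}
    (hf : ContinuousOn f U) (h : ∀ τ ∈ U, f τ ∈ latt τ) :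
    ∃ m n : ℤ, ∀ τ ∈ U, f τ = (m : ℂ) * τ + (n : ℂ) := by
  rcases U.eq_empty_or_nonempty with rfl | ⟨τ₁, h1⟩
  · exact ⟨0, 0, fun τ hτ => absurd hτ (Set.notMem_empty τ)⟩
  obtain ⟨m, n, hmn⟩ := h τ₁ h1
  have key : ∀ τ ∈ U, ∃ m n : ℤ, loc_a τ (f τ) = m ∧ loc_b τ (f τ) = n := by
    intro τ hτ
    obtain ⟨m, n, e⟩ := h τ hτ
    have h2 := loc_coord (hpos τ hτ) m n
    refine ⟨m, n, ?_, ?_⟩
    · rw [e]
      have := h2.1
      push_cast at this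
      exact this
    · rw [e]
      have := h2.2
      push_cast at this
      exact this
  have ca : ContinuousOn (fun τ => loc_a τ (f τ)) U := by
    unfold loc_a
    exact ContinuousOn.div (Complex.continuous_im.comp_continuousOn hf)
      Complex.continuous_im.continuousOn fun τ hτ => (hpos τ hτ).ne'
  have cb : ContinuousOn (fun τ => loc_b τ (f τ)) U := by
    have : ∀ τ, loc_b τ (f τ) = (f τ).re - loc_a τ (f τ) * τ.re := fun τ => rfl
    simp only [this]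
    exact (Complex.continuous_re.comp_continuousOn hf).sub
      (ca.mul Complex.continuous_re.continuousOn)
  have hd : IsDiscrete (Set.range ((↑) : ℤ → ℝ)) :=
    Int.isClosedEmbedding_coe_real.isInducing.isDiscrete_range
  refine ⟨m, n, fun τ hτ => ?_⟩
  have ea : loc_a τ (f τ) = loc_a τ₁ (f τ₁) :=
    hU.constant_of_mapsTo hd ca
      (fun τ hτ => by
        obtain ⟨m, n, h2, h3⟩ := key τ hτ
        exact ⟨m, h2.symm⟩) hτ h1
  have eb : loc_b τ (f τ) = loc_b τ₁ (f τ₁) :=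
    hU.constant_of_mapsTo hd cb
      (fun τ hτ => by
        obtain ⟨m, n, h2, h3⟩ := key τ hτ
        exact ⟨n, h3.symm⟩) hτ h1
  have e1 := loc_coord (hpos τ₁ h1) m n
  push_cast at e1
  rw [← hmn] at e1
  have e2 := loc_ab (hpos τ hτ) (f τ)
  rw [ea, eb, e1.1, e1.2] at e2
  push_cast at e2
  exact e2

theorem sum_half (Y : ℝ) : IsPreconnected {τ : ℂ | Y < τ.im} :=
  (convex_halfSpace_im_gt Y).isPreconnected

theorem sum_exp {N : ℕ} (hN : 1 ≤ N) {δ : ℝ} (hδ : 0 < δ) :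
    ∃ Y : ℝ, ∀ τ : ℂ, Y < τ.im → ‖exp (2 * Real.pi * I * τ / N)‖ < δ := by
  have hN' : (0 : ℝ) < N := by exact_mod_cast hN
  have hpi := Real.pi_pos
  refine ⟨N / (2 * Real.pi) * (-Real.log δ), fun τ hτ => ?_⟩
  have e1 : (2 * Real.pi * I * τ / N : ℂ).re = -(2 * Real.pi * τ.im / N) := by
    have e : (2 * Real.pi * I * τ / N : ℂ) = ((2 * Real.pi / N : ℝ) : ℂ) * (I * τ) := by
      push_cast
      ring
    rw [e, re_ofReal_mul]
    simp
    ring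
  rw [Complex.norm_exp, e1, ← Real.exp_log hδ, Real.exp_lt_exp]
  have h1 : -Real.log δ < 2 * Real.pi * τ.im / N := by
    have h2 : N / (2 * Real.pi) * (-Real.log δ) * (2 * Real.pi / N) < τ.im * (2 * Real.pi / N) :=
      mul_lt_mul_of_pos_right hτ (by positivity)
    have h3 : N / (2 * Real.pi) * (-Real.log δ) * (2 * Real.pi / N) = -Real.log δ := by
      field_simp
    rw [h3] at h2
    calc -Real.log δ < τ.im * (2 * Real.pi / N) := h2
      _ = 2 * Real.pi * τ.im / N := by ring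
  linarith

/-- behaviour at the cusp -/
def sum_CP (N : ℕ) (S : ℂ → ℂ) : Prop :=
  ∃ (m : ℤ) (b : ℂ), ∀ ε > 0, ∃ Y : ℝ, ∀ τ : ℂ, Y < τ.im → ‖S τ - (m : ℂ) / N * τ - b‖ < ε

theorem sum_cusp0 {N : ℕ} (hN : 1 ≤ N) {S b : ℂ → ℂ} {m : ℤ} {Y₀ : ℝ}
    (hS : ContinuousOn S {τ : ℂ | 0 < τ.im}) (hb : DifferentiableAt ℂ b 0)
    (hb' : ∀ᶠ q in 𝓝 (0 : ℂ), DifferentiableAt ℂ b q)
    (h : ∀ τ : ℂ, Y₀ < τ.im → 0 < τ.im →
      S τ - ((m : ℂ) / N * τ + b (exp (2 * Real.pi * I * τ / N))) ∈ latt τ) :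
    sum_CP N S := by
  have hN0 : (N : ℂ) ≠ 0 := by
    have : N ≠ 0 := by omega
    exact_mod_cast this
  obtain ⟨δ, hδ, hball⟩ := Metric.eventually_nhds_iff_ball.1 hb'
  obtain ⟨Y₁, hY₁⟩ := sum_exp hN hδ
  set Y := max 0 (max Y₀ Y₁) with hY
  have y0 : 0 ≤ Y := le_max_left _ _
  have y1 : Y₀ ≤ Y := le_trans (le_max_left _ _) (le_max_right _ _)
  have y2 : Y₁ ≤ Y := le_trans (le_max_right _ _) (le_max_right _ _)
  have hc : ContinuousOn (fun τ => S τ - ((m : ℂ) / N * τ + b (exp (2 * Real.pi * I * τ / N))))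
      {τ : ℂ | Y < τ.im} := by
    have c1 : ContinuousOn S {τ : ℂ | Y < τ.im} := hS.mono fun τ hτ => lt_of_le_of_lt y0 hτ
    have c2 : ContinuousOn (fun τ : ℂ => b (exp (2 * Real.pi * I * τ / N))) {τ : ℂ | Y < τ.im} := by
      intro τ hτ
      have d1 : ContinuousAt b (exp (2 * Real.pi * I * τ / N)) :=
        (hball _ (mem_ball_zero_iff.2 (hY₁ τ (lt_of_le_of_lt y2 hτ)))).continuousAt
      have d2 : ContinuousAt (fun τ : ℂ => exp (2 * Real.pi * I * τ / N)) τ := by fun_prop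
      exact (ContinuousAt.comp (f := fun τ : ℂ => exp (2 * Real.pi * I * τ / N)) d1
        d2).continuousWithinAt
    exact c1.sub (ContinuousOn.add (by fun_prop) c2)
  obtain ⟨m', n', hmn⟩ := sum_lat (sum_half Y) (fun τ hτ => lt_of_le_of_lt y0 hτ) hc
    fun τ hτ => h τ (lt_of_le_of_lt y1 hτ) (lt_of_le_of_lt y0 hτ)
  refine ⟨m + N * m', n' + b 0, fun ε hε => ?_⟩
  have hcb := hb.continuousAt
  obtain ⟨δ', hδ', hb2⟩ := Metric.continuousAt_iff.1 hcb ε hε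
  obtain ⟨Y₂, hY₂⟩ := sum_exp hN hδ'
  refine ⟨max Y Y₂, fun τ hτ => ?_⟩
  have t1 : Y < τ.im := lt_of_le_of_lt (le_max_left _ _) hτ
  have t2 : Y₂ < τ.im := lt_of_le_of_lt (le_max_right _ _) hτ
  have e1 := hmn τ t1
  have e2 : dist (exp (2 * Real.pi * I * τ / N)) 0 < δ' := by
    rw [dist_zero_right]
    exact hY₂ τ t2
  have e3 := hb2 e2
  rw [dist_eq_norm] at e3
  have e4 : S τ - ((m + N * m' : ℤ) : ℂ) / N * τ - (n' + b 0) =
      b (exp (2 * Real.pi * I * τ / N)) - b 0 := by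
    have e5 : ((m + N * m' : ℤ) : ℂ) / N * τ = (m : ℂ) / N * τ + m' * τ := by
      push_cast
      field_simp
    rw [e5]
    linear_combination e1
  rw [e4]
  exact e3

/-- passage to another representative of the cusp -/
theorem sum_cusp1 {N : ℕ} (hN : 1 ≤ N) {S S' : ℂ → ℂ} {s j m n : ℤ} (hs : s = 1 ∨ s = -1)
    (hS' : sum_CP N S')
    (h : ∀ τ : ℂ, 0 < τ.im → S' (τ + (j : ℂ)) * (s : ℂ) = S τ + (m : ℂ) * τ + (n : ℂ)) :
    sum_CP N S := by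
  have hN0 : (N : ℂ) ≠ 0 := by
    have : N ≠ 0 := by omega
    exact_mod_cast this
  obtain ⟨m', b', hb'⟩ := hS'
  refine ⟨s * m' - N * m, s * (b' + (m' : ℂ) / N * j) - n, fun ε hε => ?_⟩
  obtain ⟨Y, hY⟩ := hb' ε hε
  refine ⟨max 0 Y, fun τ hτ => ?_⟩
  have t0 : 0 < τ.im := lt_of_le_of_lt (le_max_left _ _) hτ
  have t1 : Y < τ.im := lt_of_le_of_lt (le_max_right _ _) hτ
  have t2 : Y < (τ + (j : ℂ)).im := by
    simpa using t1
  have e1 := h τ t0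
  have e2 := hY _ t2
  have e3 : S τ - ((s * m' - N * m : ℤ) : ℂ) / N * τ - (s * (b' + (m' : ℂ) / N * j) - n) =
      (s : ℂ) * (S' (τ + (j : ℂ)) - (m' : ℂ) / N * (τ + j) - b') := by
    have e5 : ((s * m' - N * m : ℤ) : ℂ) / N * τ = s * ((m' : ℂ) / N * τ) - m * τ := by
      push_cast
      field_simp
    rw [e5]
    linear_combination -e1
  have e4 : ‖(s : ℂ)‖ = 1 := by
    rcases hs with rfl | rfl <;> simp
  rw [e3, norm_mul, e4, one_mul]
  exact e2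

theorem sum_im (γ : SL(2, ℤ)) {τ : ℂ} (hτ : 0 < τ.im) : 0 < (mob γ τ).im := by
  have h := UpperHalfPlane.coe_specialLinearGroup_apply γ (⟨τ, hτ⟩ : UpperHalfPlane)
  have h' := (γ • (⟨τ, hτ⟩ : UpperHalfPlane)).im_pos
  have e : ((γ • (⟨τ, hτ⟩ : UpperHalfPlane) : UpperHalfPlane) : ℂ) = mob γ τ := by
    rw [h]
    simp [mob]
  rw [← e]
  exact h'

/-- a zero makes the degree positive -/
theorem sum_pos {μ : E → ℕ} (hfib : FibDiv μ {x : E | 0 < x.1.im})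
    (hper : ∀ (τ z : ℂ) (m n : ℤ), 0 < τ.im → μ (τ, z + m * τ + n) = μ (τ, z)) {τ z : ℂ}
    (hτ : 0 < τ.im) (hz : 0 < μ (τ, z)) : 1 ≤ degF μ τ := by
  obtain ⟨⟨w, hw⟩, hwz⟩ := (loc_bij hτ 0 0).2 (z : ℂ ⧸ latt τ)
  have hw' : ((w : ℂ) : ℂ ⧸ latt τ) = (z : ℂ ⧸ latt τ) := hwz
  have h1 : μ (τ, w) = μ (τ, z) := by
    rw [← loc_out hτ hper w, hw', loc_out hτ hper z]
  have hK : IsCompact ((fun x : ℝ × ℝ => (x.1 : ℂ) * τ + (x.2 : ℂ)) ''
      (Set.Icc (0 : ℝ) (0 + 1) ×ˢ Set.Icc (0 : ℝ) (0 + 1))) :=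
    (isCompact_Icc.prod isCompact_Icc).image (by fun_prop)
  have hfin := loc_finite hfib hτ hK
  have hfin2 : (loc_D 0 0 τ ∩ Function.support fun z => μ (τ, z)).Finite := by
    refine hfin.subset ?_
    rintro v ⟨⟨i1, i2, i3, i4⟩, hv⟩
    exact ⟨⟨(loc_a τ v, loc_b τ v), ⟨⟨i1, i2.le⟩, i3, i4.le⟩, (loc_ab hτ v).symm⟩, hv⟩
  rw [loc_degF hτ hper 0 0, finsum_mem_eq_sum _ hfin2]
  have hmem : w ∈ hfin2.toFinset := by
    rw [Set.Finite.mem_toFinset]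
    exact ⟨hw, by show μ (τ, w) ≠ 0; omega⟩
  have h2 := Finset.single_le_sum (f := fun z => μ (τ, z)) (fun i _ => Nat.zero_le _) hmem
  have h3 : μ (τ, w) ≤ ∑ i ∈ hfin2.toFinset, μ (τ, i) := h2
  omega

theorem st_SUM (h1 : ST_GLOB) (h2 : ST_SEQ) (h3 : ST_SCU) (h4 : ST_BOR) : ST_SUM := by
  intro M N hNK t D
  have hN1 : 1 ≤ N := by
    have := hNK.2
    omega
  have hper : ∀ (q : QN M N) (τ z : ℂ) (m n : ℤ), 0 < τ.im →
      D.μ q (τ, z + m * τ + n) = D.μ q (τ, z) := by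
    intro q τ z m n hτ
    refine (D.inv q q (τ, z) (τ, z + m * τ + n) hτ ⟨1, m, n, ?_, ?_, ?_⟩).symm
    · rw [map_one, mul_one]
    · simp [mob]
    · have e : jj 1 τ = 1 := by simp [jj]
      show (z + m * τ + n - sF M t (zet M q) τ) * jj 1 τ = z - sF M t (zet M q) τ + m * τ + n
      rw [e]
      ring
  choose d S hS hSd using fun q => h1 (D.μ q) (D.fib q) (hper q)
  have hd : ∀ q q', d q = d q' := by
    intro q q'
    obtain ⟨γ, hγ⟩ := (q'⁻¹ * q).2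
    have e : (q : SL(2, ZMod N) × ℂˣ) = (q' : SL(2, ZMod N) × ℂˣ) * hN M N γ := by
      rw [hγ]
      simp
    have hI : 0 < (I : ℂ).im := by simp
    have e1 := (h2 M N hNK t D q q' γ e).1 I hI
    rw [(hSd q I hI).2, (hSd q' (mob γ I) (sum_im γ hI)).2] at e1
    exact e1.symm
  have hequi : ∀ (q q' : QN M N) (γ : SL(2, ℤ)),
      (q : SL(2, ZMod N) × ℂˣ) = (q' : SL(2, ZMod N) × ℂˣ) * hN M N γ →
      ∃ m n : ℤ, ∀ τ : ℂ, 0 < τ.im → S q' (mob γ τ) * jj γ τ = S q τ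
        + (d 1 : ℂ) * (t : ℂ) * ((((zet M q' * M.V₁ γ).re : ℝ) : ℂ) * τ
          + (((zet M q' * M.V₂ γ).re : ℝ) : ℂ)) + (m : ℂ) * τ + (n : ℂ) := by
    intro q q' γ e
    exact (h2 M N hNK t D q q' γ e).2 (d 1) (S q) (S q') (hS q).continuousOn (hS q').continuousOn
      (fun τ hτ => ⟨(hSd q τ hτ).1, by rw [(hSd q τ hτ).2, hd q 1]⟩) fun τ hτ => (hSd q' τ hτ).1
  refine ⟨⟨d 1, S, ?_, hS, hequi, ?_⟩⟩
  · obtain ⟨q, x, hx, hpos⟩ := D.pos
    have e1 := sum_pos (D.fib q) (hper q) (τ := x.1) (z := x.2) hx hpos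
    rw [(hSd q x.1 hx).2, hd q 1] at e1
    exact e1
  · intro q
    -- the representative of the cusp
    obtain ⟨⟨h, hh⟩, e⟩ := QuotientGroup.mk_out_eq_mul (HB M N) q
    obtain ⟨γ, hγ, rfl⟩ := hh
    have e1 : cout M (N := N) (QuotientGroup.mk q) = q * (hN M N).rangeRestrict γ := e
    have e2 : (q : SL(2, ZMod N) × ℂˣ) =
        (cout M (N := N) (QuotientGroup.mk q) : SL(2, ZMod N) × ℂˣ) * hN M N γ⁻¹ := by
      rw [e1, map_inv]
      simp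
    have hγ' : γ⁻¹ ∈ borel := borel.inv_mem hγ
    obtain ⟨s, hs, s1, s2, s3, s4, s5, -⟩ := h4 M γ⁻¹ hγ'
    obtain ⟨m, n, hmn⟩ := hequi q (cout M (QuotientGroup.mk q)) γ⁻¹ e2
    obtain ⟨m', b, Y₀, hb1, hb2, hb3⟩ := h3 M N hNK t D (QuotientGroup.mk q)
    have hc : sum_CP N (S (cout M (QuotientGroup.mk q))) := by
      refine sum_cusp0 hN1 (hS _).continuousOn hb1 hb2 (m := m') (Y₀ := Y₀) fun τ hτ hτ0 => ?_
      have e3 := (hSd (cout M (QuotientGroup.mk q)) τ hτ0).1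
      rw [hb3 τ hτ hτ0, eq_comm, QuotientAddGroup.eq_iff_sub_mem] at e3
      exact e3
    refine sum_cusp1 hN1 (s := s) (j := s * (γ⁻¹ : SL(2, ℤ)) 0 1) (m := m) (n := n) hs hc
      fun τ hτ => ?_
    have e4 := hmn τ hτ
    rw [s4, s5, (s3 τ).1, (s3 τ).2] at e4
    rw [e4]
    simp

end RicP
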